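import Pool.Agent.Y127.C.Mtc

/-!
# Cusp places
-/

set_option autoImplicit false
set_option linter.unusedSectionVars false

namespace Pool.Agent.Y127.C

open MvPolynomial Pool.Agent.W528.ZC Pool.Agent.Y95.MT Pool.Agent.Y127.I
open Matrix hiding col
open Pool.Agent.W544.PG

noncomputable section

variable {ℓ : ℕ} [Fact ℓ.Prime] {n r : ℕ} {κ : Type} [Fintype κ] [DecidableEq κ] {Γ : Type}
  [Group Γ] {c : Fin n → Fin r} {T : HS n} {p q : Fin r → ℕ}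
  {β : Γ →* Matrix (Fin n) (Fin n) ℤ_[ℓ]} {v : Γ →* Matrix κ κ ℚ_[ℓ]} {hV : ℂ → Matrix κ κ ℂ}

/-- Jordan blocks `3, 1, ..., 1` on `T_i`, the identity on the other `T_j`. -/
def CuspJ (c : Fin n → Fin r) (β : Γ →* Matrix (Fin n) (Fin n) ℤ_[ℓ]) (v : Γ →* Matrix κ κ ℚ_[ℓ])
    (i : Fin r) : Prop :=
  ∃ σ : Γ, IsOfFinOrder (v σ) ∧
    (∀ a b, c b ≠ i → qm (β σ) a b = (1 : Matrix (Fin n) (Fin n) ℚ_[ℓ]) a b) ∧
    (qm (β σ) - 1) ^ 3 = 0 ∧ (qm (β σ) - 1) ^ 2 ≠ 0 ∧ (qm (β σ) - 1).rank = 2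

theorem cuspE_of (hg : GalT c T.Q β) {i : Fin r} (h : CuspJ c β v i) : CuspE c T β v i := by
  obtain ⟨σ, hfin, htr, h1, h2, h3⟩ := h
  have hQs : (T.Q.map (algebraMap ℚ ℚ_[ℓ]))ᵀ = T.Q.map (algebraMap ℚ ℚ_[ℓ]) := by
    rw [← Matrix.transpose_map, T.symm]
  have hQd : (T.Q.map (algebraMap ℚ ℚ_[ℓ])).det ≠ 0 := by
    have h7 : (T.Q.map (algebraMap ℚ ℚ_[ℓ])).det = algebraMap ℚ ℚ_[ℓ] T.Q.det :=
      (RingHom.map_det (algebraMap ℚ ℚ_[ℓ]) T.Q).symm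
    rw [h7]
    exact (map_ne_zero _).2 (W74.PG.det_ne T)
  obtain ⟨e, a, hE, he, hU⟩ := exists_Ee_matrix (F := ℚ_[ℓ]) hQs hQd two_ne_zero (hg.form σ)
    ⟨h1, h2, h3⟩
  set Q := T.Q.map (algebraMap ℚ ℚ_[ℓ]) with hQ
  have hsy : ∀ x y, bil Q x y = bil Q y x := bil_symm hQs
  -- the image is contained in `T_i`
  have himg : ∀ z, Ee (bil Q) e a z - z ∈ (col c i : Submodule ℚ_[ℓ] (Fin n → ℚ_[ℓ])) := by
    intro z x hx
    rw [← hU, toLin'_apply, Pi.sub_apply, sub_eq_zero, Matrix.mulVec, dotProduct]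
    have h4 : ∀ b, qm (β σ) x b * z b = (1 : Matrix (Fin n) (Fin n) ℚ_[ℓ]) x b * z b := by
      intro b
      by_cases hb : c b = i
      · rw [hg.qbd σ x b (by rw [hb]; exact hx), Matrix.one_apply_ne, zero_mul]
        rintro rfl
        exact hx hb
      · rw [htr x b hb]
    rw [Finset.sum_congr rfl fun b _ => h4 b]
    simp [Matrix.one_apply]
  have e1 : wl (bil Q) e a a = (bil Q a a) • e := by
    rw [wl_apply, hE.ea, zero_smul, sub_zero]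
  have e2 : wl (bil Q) e a e = 0 := by
    rw [wl_apply, hE.ee, zero_smul, sub_zero, hsy a e, hE.ea, zero_smul]
  have hEe : ∀ z, Ee (bil Q) e a z - z = wl (bil Q) e a z +
      (2 : ℚ_[ℓ])⁻¹ • wl (bil Q) e a (wl (bil Q) e a z) := by
    intro z
    unfold Ee
    rw [LinearMap.add_apply, LinearMap.add_apply, Module.End.one_apply, LinearMap.smul_apply,
      Module.End.mul_apply]
    abel
  have hec : e ∈ (col c i : Submodule ℚ_[ℓ] (Fin n → ℚ_[ℓ])) := by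
    have h4 := himg a
    rw [hEe, e1, map_smul, e2, smul_zero, smul_zero, add_zero] at h4
    exact (Submodule.smul_mem_iff _ hE.aa).1 h4
  have hac : a ∈ (col c i : Submodule ℚ_[ℓ] (Fin n → ℚ_[ℓ])) := by
    obtain ⟨z, hz⟩ : ∃ z, bil Q e z ≠ 0 := by
      by_contra hcon
      push Not at hcon
      exact he (nd_of_det hQd e hcon)
    have h4 := himg z
    have h5 : wl (bil Q) e a z = (bil Q a z) • e - (bil Q e z) • a := wl_apply _ _ _
    rw [hEe, h5, map_sub, map_smul, map_smul, e1, e2] at h4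
    have h6 : (bil Q e z) • a ∈ (col c i : Submodule ℚ_[ℓ] (Fin n → ℚ_[ℓ])) := by
      have h7 := Submodule.sub_mem _ (Submodule.smul_mem _
        (bil Q a z - (2 : ℚ_[ℓ])⁻¹ * (bil Q e z * bil Q a a)) hec) h4
      convert h7 using 1
      module
    exact (Submodule.smul_mem_iff _ hz).1 h6
  obtain ⟨m, hm, hvm⟩ := isOfFinOrder_iff_pow_eq_one.1 hfin
  have hm0 : (m : ℚ_[ℓ]) ≠ 0 := Nat.cast_ne_zero.2 (by omega)
  refine ⟨σ ^ m, (m : ℚ_[ℓ]) • e, a, Submodule.smul_mem _ _ hec, hac, hE.smul _,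
    smul_ne_zero hm0 he, by rw [map_pow, hvm], ?_⟩
  rw [Ee_nat hsy two_ne_zero hE, ← hU, ← I.toLin_pow]
  congr 1
  exact (qmHom β).map_pow σ m

/-- the case of `N ⊕ T` -/
theorem main_N' (hB : T.Big c p q) (hv : (Set.range v).Finite) (hg : GalT c T.Q β)
    (hcusp : ∀ i, CuspJ c β v i) :
    MTC (hM (fun _ => (1 : Matrix κ κ ℂ)) T) (tot v β) ↔ ∀ i, SIs c β i := by
  rw [main' hB (fun _ _ => by rw [Matrix.det_one]; exact one_ne_zero) star_N hg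
    fun i => cuspE_of hg (hcusp i)]
  exact ⟨fun h => h.2, fun h => ⟨MTC_N hv, h⟩⟩

theorem fin_order (hv : (Set.range v).Finite) (σ : Γ) : IsOfFinOrder (v σ) := by
  have h1 : (Set.range fun m : ℕ => v σ ^ m).Finite := by
    refine hv.subset ?_
    rintro _ ⟨m, rfl⟩
    exact ⟨σ ^ m, map_pow _ _ _⟩
  have h2 : ¬ Function.Injective fun m : ℕ => v σ ^ m := fun hinj =>
    (Set.infinite_range_of_injective hinj) h1
  have h3 : ∃ a b : ℕ, a < b ∧ v σ ^ a = v σ ^ b := by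
    rw [Function.Injective] at h2
    push Not at h2
    obtain ⟨a, b, hab, hne⟩ := h2
    rcases lt_or_gt_of_ne hne with h | h
    · exact ⟨a, b, h, hab⟩
    · exact ⟨b, a, h, hab.symm⟩
  obtain ⟨a, b, hlt, hab⟩ := h3
  refine isOfFinOrder_iff_pow_eq_one.2 ⟨b - a, by omega, ?_⟩
  have h4 : v (σ⁻¹) ^ a * v σ ^ a = 1 := by
    rw [← map_pow, ← map_pow, ← map_mul, inv_pow, inv_mul_cancel, map_one]
  calc v σ ^ (b - a) = v (σ⁻¹) ^ a * v σ ^ a * v σ ^ (b - a) := by rw [h4, one_mul]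
    _ = v (σ⁻¹) ^ a * v σ ^ b := by rw [mul_assoc, ← pow_add]; congr 2; omega
    _ = 1 := by rw [← hab, h4]

/-- sums with a Hodge structure of abelian type -/
theorem main_V' (hB : T.Big c p q) (hp2 : ∀ i, 2 ≤ p i) (V : RHS κ)
    (hShim : ∀ y ∈ lieMT V.h,
      V.X * (V.X * (V.X * y - y * V.X) - (V.X * y - y * V.X) * V.X) -
        (V.X * (V.X * y - y * V.X) - (V.X * y - y * V.X) * V.X) * V.X =
        (4 : ℂ) • (V.X * y - y * V.X))
    (hg : GalT c T.Q β) (hcusp : ∀ i, CuspJ c β v i) :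
    MTC (hM V.h T) (tot v β) ↔ MTC V.h v ∧ ∀ i, SIs c β i := by
  refine main' hB V.h_det ?_ hg fun i => cuspE_of hg (hcusp i)
  refine star_V hB hp2 V.h_det (X_mem V T) fun y Z hy => ?_
  have h1 := hShim y (lie_of_LS V.h_det hB.bQ hB.bx hy)
  have h2 : ∀ w : Matrix κ κ ℂ, (2 : ℂ)⁻¹ • V.X * w - w * (2 : ℂ)⁻¹ • V.X =
      (2 : ℂ)⁻¹ • (V.X * w - w * V.X) := by
    intro w
    rw [Matrix.smul_mul, Matrix.mul_smul, smul_sub]
  have h3 : ∀ w : Matrix κ κ ℂ, V.X * ((2 : ℂ)⁻¹ • w) - ((2 : ℂ)⁻¹ • w) * V.X =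
      (2 : ℂ)⁻¹ • (V.X * w - w * V.X) := by
    intro w
    rw [Matrix.smul_mul, Matrix.mul_smul, smul_sub]
  rw [h2, h2, h3, h2, h3, h3, h1]
  rw [smul_smul, smul_smul, smul_smul]
  congr 1
  norm_num

end

end Pool.Agent.Y127.C
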