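import Mathlib
import Pool.Agent.Y95.MT.Main
import Pool.Agent.Y95.MT.Unip
import Pool.Agent.Y127.I.Cusp2

/-!
# Lie algebras of monodromy groups which contain an Eichler transformation
-/

set_option autoImplicit false
set_option linter.unusedSectionVars false

namespace Pool.Agent.Y127.C

open MvPolynomial Pool.Agent.W528.ZC Pool.Agent.Y95.MT Pool.Agent.Y127.I
open Matrix hiding col
open Pool.Agent.W544.PG (BD)

noncomputable section

section log

variable {k K : Type} [Field k] [Field K] [CharZero K] {ι : Type} [Fintype ι] [DecidableEq ι]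
  {Γ : Type} [Group Γ] {ρ : Γ →* Matrix ι ι k} {j : k →+* K}

/-- The logarithm of a unipotent element of the image belongs to the Lie algebra. -/
theorem log_mem {γ : Γ} {N : Matrix ι ι K}
    (h : ∀ m : ℕ, ((ρ γ).map j) ^ m =
      1 + (m : K) • N + ((m : K) * (m : K)) • ((2 : K)⁻¹ • (N * N))) :
    N ∈ LS (IG ρ j) := by
  rw [mem_LS]
  intro f hf
  obtain ⟨M, hM, hm⟩ := IG_pow γ hf
  refine D_mem_of_quad N ((2 : K)⁻¹ • (N * N)) (IG ρ j) f ?_
  refine Set.Infinite.mono (s := Set.range fun m : ℕ => ((M * m : ℕ) : K)) ?_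
    (Set.infinite_range_of_injective ?_)
  · rintro _ ⟨m, rfl⟩
    have h1 := hm m
    rw [h] at h1
    exact h1
  · intro a b hab
    have h1 : M * a = M * b := Nat.cast_injective hab
    exact Nat.eq_of_mul_eq_mul_left hM h1

end log

section res

variable {F : Type} [Field F] {n r : ℕ} {c : Fin n → Fin r} {i : Fin r} {Γ : Type} [Group Γ]

/-- the projection to the vectors of colour `i` -/
def pr (F : Type) [Field F] (c : Fin n → Fin r) (i : Fin r) :
    (Fin n → F) →ₗ[F] (col c i : Submodule F (Fin n → F)) where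
  toFun z := ⟨fun a => if c a = i then z a else 0, fun a ha => if_neg ha⟩
  map_add' x y := by
    apply Subtype.ext
    funext a
    show (if c a = i then (x + y) a else 0) = (if c a = i then x a else 0) +
      (if c a = i then y a else 0)
    split_ifs <;> simp
  map_smul' t x := by
    apply Subtype.ext
    funext a
    show (if c a = i then (t • x) a else 0) = t * (if c a = i then x a else 0)
    split_ifs <;> simp

theorem pr_apply (z : Fin n → F) (a : Fin n) :
    (pr F c i z : Fin n → F) a = if c a = i then z a else 0 := rfl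

theorem pr_self (w : (col c i : Submodule F (Fin n → F))) : pr F c i w = w := by
  apply Subtype.ext
  funext a
  rw [pr_apply]
  split_ifs with h
  · rfl
  · exact (w.2 a h).symm

/-- the restricted representation -/
def gres (G : Γ →* Matrix (Fin n) (Fin n) F)
    (hst : ∀ s, ∀ w ∈ (col c i : Submodule F (Fin n → F)), G s *ᵥ w ∈ col c i) :
    Γ →* Module.End F (col c i : Submodule F (Fin n → F)) where
  toFun s := (toLin' (G s)).restrict (fun w hw => by rw [toLin'_apply]; exact hst s w hw)
  map_one' := by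
    apply LinearMap.ext
    intro w
    apply Subtype.ext
    show toLin' (G 1) (w : Fin n → F) = w
    rw [map_one, toLin'_one]
    rfl
  map_mul' s t := by
    apply LinearMap.ext
    intro w
    apply Subtype.ext
    show toLin' (G (s * t)) (w : Fin n → F) = toLin' (G s) (toLin' (G t) (w : Fin n → F))
    rw [map_mul, toLin'_mul]
    rfl

theorem gres_coe (G : Γ →* Matrix (Fin n) (Fin n) F)
    (hst : ∀ s, ∀ w ∈ (col c i : Submodule F (Fin n → F)), G s *ᵥ w ∈ col c i) (s : Γ)
    (w : (col c i : Submodule F (Fin n → F))) :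
    (gres G hst s w : Fin n → F) = G s *ᵥ (w : Fin n → F) := by
  show toLin' (G s) (w : Fin n → F) = _
  rw [toLin'_apply]

/-- the restricted form -/
def bres (Q : Matrix (Fin n) (Fin n) F) (c : Fin n → Fin r) (i : Fin r) :
    (col c i : Submodule F (Fin n → F)) →ₗ[F] (col c i : Submodule F (Fin n → F)) →ₗ[F] F :=
  (bil Q).domRestrict₁₂ (col c i) (col c i)

theorem bres_apply (Q : Matrix (Fin n) (Fin n) F) (x y : (col c i : Submodule F (Fin n → F))) :
    bres Q c i x y = bil Q (x : Fin n → F) (y : Fin n → F) := rfl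

theorem wl_res (Q : Matrix (Fin n) (Fin n) F) (x y z : (col c i : Submodule F (Fin n → F))) :
    (wl (bres Q c i) x y z : Fin n → F) = wl (bil Q) (x : Fin n → F) (y : Fin n → F) z := rfl

variable {κ : Type} [Fintype κ] [DecidableEq κ] {K : Type} [Field K]

/-- operators on the vectors of colour `i` as matrices -/
def emb (κ : Type) [Fintype κ] [DecidableEq κ] (j : F →+* K) (c : Fin n → Fin r) (i : Fin r)
    (Y : Module.End F (col c i : Submodule F (Fin n → F))) :
    Matrix (κ ⊕ Fin n) (κ ⊕ Fin n) K :=
  fromBlocks 0 0 0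
    ((LinearMap.toMatrix' ((col c i : Submodule F (Fin n → F)).subtype ∘ₗ Y ∘ₗ pr F c i)).map j)

variable {j : F →+* K}

theorem emb_zero : emb κ j c i 0 = 0 := by
  unfold emb
  rw [LinearMap.zero_comp, LinearMap.comp_zero, map_zero]
  ext x y
  rcases x with x | x <;> rcases y with y | y <;> simp

theorem emb_add (Y Z : Module.End F (col c i : Submodule F (Fin n → F))) :
    emb κ j c i (Y + Z) = emb κ j c i Y + emb κ j c i Z := by
  unfold emb
  rw [LinearMap.add_comp, LinearMap.comp_add, map_add]
  ext x y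
  rcases x with x | x <;> rcases y with y | y <;> simp

theorem emb_smul (t : F) (Y : Module.End F (col c i : Submodule F (Fin n → F))) :
    emb κ j c i (t • Y) = j t • emb κ j c i Y := by
  unfold emb
  rw [LinearMap.smul_comp, LinearMap.comp_smul, map_smul]
  ext x y
  rcases x with x | x <;> rcases y with y | y <;> simp

theorem emb_mul (Y Z : Module.End F (col c i : Submodule F (Fin n → F))) :
    emb κ j c i (Y * Z) = emb κ j c i Y * emb κ j c i Z := by
  unfold emb
  rw [Matrix.fromBlocks_multiply, ← Matrix.map_mul, ← LinearMap.toMatrix'_mul]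
  have h1 : (col c i : Submodule F (Fin n → F)).subtype ∘ₗ (Y * Z) ∘ₗ pr F c i =
      ((col c i : Submodule F (Fin n → F)).subtype ∘ₗ Y ∘ₗ pr F c i) *
      ((col c i : Submodule F (Fin n → F)).subtype ∘ₗ Z ∘ₗ pr F c i) := by
    apply LinearMap.ext
    intro z
    show ((Y (Z (pr F c i z)) : (col c i : Submodule F (Fin n → F))) : Fin n → F) =
      ((Y (pr F c i ((Z (pr F c i z) : (col c i : Submodule F (Fin n → F))) : Fin n → F)) :
        (col c i : Submodule F (Fin n → F))) : Fin n → F)
    rw [pr_self]
  rw [h1]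
  simp

theorem col_dot {Q : Matrix (Fin n) (Fin n) F} (hQb : BD c Q) {x : Fin n → F}
    (hx : x ∈ (col c i : Submodule F (Fin n → F))) (z : Fin n → F) :
    bil Q x (pr F c i z : Fin n → F) = bil Q x z := by
  rw [bil_apply, bil_apply]
  simp only [dotProduct, Matrix.mulVec]
  refine Finset.sum_congr rfl fun a _ => ?_
  by_cases ha : c a = i
  · congr 1
    refine Finset.sum_congr rfl fun b _ => ?_
    by_cases hb : c b = i
    · rw [pr_apply, if_pos hb]
    · rw [hQb a b (by rw [ha]; exact fun h => hb h.symm), zero_mul, zero_mul]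
  · rw [hx a ha, zero_mul, zero_mul]

theorem wd_mulVec (Q : Matrix (Fin n) (Fin n) F) (hQ : Qᵀ = Q) (x y z : Fin n → F) :
    wd Q x y *ᵥ z = wl (bil Q) x y z := by
  have h1 : ∀ u v z : Fin n → F, vecMulVec u (Q *ᵥ v) *ᵥ z = (bil Q v z) • u := by
    intro u v z
    rw [bil_apply, Matrix.vecMulVec_mulVec, bsymm hQ v z, dotProduct_comm, op_smul_eq_smul]
  unfold wd
  rw [Matrix.sub_mulVec, h1, h1]
  rfl

theorem emb_wl {Q : Matrix (Fin n) (Fin n) F} (hQ : Qᵀ = Q) (hQb : BD c Q)
    (x y : (col c i : Submodule F (Fin n → F))) :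
    emb κ j c i (wl (bres Q c i) x y) =
      fromBlocks 0 0 0 ((wd Q (x : Fin n → F) (y : Fin n → F)).map j) := by
  unfold emb
  congr 2
  apply (Matrix.toLin' (R := F)).injective
  rw [Matrix.toLin'_toMatrix']
  apply LinearMap.ext
  intro z
  show ((wl (bres Q c i) x y (pr F c i z) : (col c i : Submodule F (Fin n → F))) : Fin n → F) = _
  rw [wl_res, toLin'_apply, wd_mulVec Q hQ, wl_apply, wl_apply, col_dot hQb x.2, col_dot hQb y.2]

end res

end

end Pool.Agent.Y127.C
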