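import Pool.Agent.Y127.C.Lie

/-!
# The Lie algebra contains `so(T_i)`
-/

set_option autoImplicit false
set_option linter.unusedSectionVars false

namespace Pool.Agent.Y127.C

open MvPolynomial Pool.Agent.W528.ZC Pool.Agent.Y95.MT Pool.Agent.Y127.I
open Matrix hiding col
open Pool.Agent.W544.PG (BD)

noncomputable section

variable {F : Type} [Field F] [CharZero F] {K : Type} [Field K] [CharZero K] {j : F →+* K}
  {n r : ℕ} {c : Fin n → Fin r} {i : Fin r} {Γ : Type} [Group Γ]
  {κ : Type} [Fintype κ] [DecidableEq κ]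
  {ρ : Γ →* Matrix (κ ⊕ Fin n) (κ ⊕ Fin n) F} {v : Γ →* Matrix κ κ F}
  {G : Γ →* Matrix (Fin n) (Fin n) F} {Q : Matrix (Fin n) (Fin n) F}

theorem map_smul_j {ι : Type} (t : F) (W : Matrix ι ι F) : (t • W).map j = j t • W.map j := by
  ext x y
  simp

theorem toLin_wd (hQ : Qᵀ = Q) (x y : Fin n → F) : toLin' (wd Q x y) = wl (bil Q) x y := by
  apply LinearMap.ext
  intro z
  rw [toLin'_apply, wd_mulVec Q hQ]

/-- The logarithm of an Eichler transformation in the image. -/
theorem wd_mem (hρ : ∀ s, ρ s = fromBlocks (v s) 0 0 (G s)) (hQ : Qᵀ = Q) {γ : Γ}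
    {e a : Fin n → F} (hE : Eic (bil Q) e a) (hv : v γ = 1)
    (hG : toLin' (G γ) = Ee (bil Q) e a) :
    (fromBlocks 0 0 0 ((wd Q e a).map j) : Matrix (κ ⊕ Fin n) (κ ⊕ Fin n) K) ∈ LS (IG ρ j) := by
  refine log_mem (γ := γ) fun m => ?_
  have h1 : G γ ^ m = 1 + (m : F) • wd Q e a +
      ((m : F) * (m : F)) • ((2 : F)⁻¹ • (wd Q e a * wd Q e a)) := by
    apply (Matrix.toLin' (R := F)).injective
    rw [I.toLin_pow, hG, ← Ee_nat (bil_symm hQ) two_ne_zero hE, map_add, map_add, map_smul, map_smul,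
      map_smul, toLin'_mul, toLin_wd hQ, toLin'_one]
    unfold Ee
    rw [map_smul, LinearMap.smul_apply]
    apply LinearMap.ext
    intro z
    simp only [LinearMap.add_apply, LinearMap.smul_apply, Module.End.mul_apply, map_smul,
      Module.End.one_apply, LinearMap.comp_apply, LinearMap.id_apply, smul_smul]
    module
  have h2 : (1 : Matrix (κ ⊕ Fin n) (κ ⊕ Fin n) K) = fromBlocks 1 0 0 1 := fromBlocks_one.symm
  have h3 : (G γ ^ m).map j = 1 + (m : K) • (wd Q e a).map j +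
      ((m : K) * (m : K)) • ((2 : K)⁻¹ • ((wd Q e a).map j * (wd Q e a).map j)) := by
    rw [h1, Matrix.map_add _ (map_add j), Matrix.map_add _ (map_add j),
      Matrix.map_one _ (map_zero j) (map_one j), map_smul_j, map_smul_j, map_smul_j,
      Matrix.map_mul, map_natCast, map_mul, map_natCast, map_inv₀, map_ofNat]
  rw [map_pow_j, hρ, map_pow, map_pow, hv, one_pow, Matrix.fromBlocks_map, h3, h2,
    Matrix.fromBlocks_multiply, Matrix.fromBlocks_smul, Matrix.fromBlocks_smul,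
    Matrix.fromBlocks_smul, Matrix.fromBlocks_add, Matrix.fromBlocks_add]
  congr 1 <;> ext x y <;> simp [Matrix.one_apply]

/-- **The Lie algebra contains all `x ∧ y` with `x`, `y` in `T_i`.** -/
theorem so_mem (hρ : ∀ s, ρ s = fromBlocks (v s) 0 0 (G s)) (hQ : Qᵀ = Q) (hQd : Q.det ≠ 0)
    (hQb : BD c Q) (hG : ∀ s, (G s)ᵀ * Q * G s = Q)
    (hst : ∀ s, ∀ w ∈ (col c i : Submodule F (Fin n → F)), G s *ᵥ w ∈ col c i)
    {σ : Γ} {e a : Fin n → F} (he : e ∈ (col c i : Submodule F (Fin n → F)))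
    (ha : a ∈ (col c i : Submodule F (Fin n → F)))
    (hE : Eic (bil Q) e a) (he0 : e ≠ 0) (hv : v σ = 1) (hσ : toLin' (G σ) = Ee (bil Q) e a)
    (hirr : ∀ Δ : Subgroup Γ, Δ.index ≠ 0 →
      Δ.index ≤ Module.finrank F (col c i : Submodule F (Fin n → F)) →
      ∀ W : Submodule F (Fin n → F), W ≤ col c i → (∀ s ∈ Δ, ∀ w ∈ W, G s *ᵥ w ∈ W) →
        W = ⊥ ∨ W = col c i)
    {x y : Fin n → F} (hx : x ∈ (col c i : Submodule F (Fin n → F)))
    (hy : y ∈ (col c i : Submodule F (Fin n → F))) :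
    (fromBlocks 0 0 0 ((wd Q x y).map j) : Matrix (κ ⊕ Fin n) (κ ⊕ Fin n) K) ∈ LS (IG ρ j) := by
  have hsy : ∀ x y : (col c i : Submodule F (Fin n → F)), bres Q c i x y = bres Q c i y x :=
    fun x y => bil_symm hQ _ _
  have hnd : ∀ x : (col c i : Submodule F (Fin n → F)), (∀ y, bres Q c i x y = 0) → x = 0 := by
    intro x hx
    apply Subtype.ext
    refine nd_of_det hQd (x : Fin n → F) fun z => ?_
    rw [← col_dot hQb x.2 z]
    exact hx (pr F c i z)
  have hg : ∀ γ (x y : (col c i : Submodule F (Fin n → F))),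
      bres Q c i (gres G hst γ x) (gres G hst γ y) = bres Q c i x y := by
    intro γ x y
    rw [bres_apply, bres_apply, gres_coe, gres_coe, ← toLin'_apply, ← toLin'_apply]
    exact isom_of_matrix (hG γ) _ _
  have hs : SIrr (gres G hst) := by
    intro Δ h0 hi W hW
    have h1 := hirr Δ h0 hi (W.map (col c i : Submodule F (Fin n → F)).subtype)
      (Submodule.map_subtype_le _ _) (by
        rintro s hs _ ⟨w, hw, rfl⟩
        refine ⟨gres G hst s w, hW s hs w hw, ?_⟩
        exact gres_coe G hst s w)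
    rcases h1 with h1 | h1
    · left
      rw [eq_bot_iff]
      intro w hw
      have h2 : (w : Fin n → F) ∈
          W.map (col c i : Submodule F (Fin n → F)).subtype := ⟨w, hw, rfl⟩
      rw [h1, Submodule.mem_bot] at h2
      rw [Submodule.mem_bot]
      exact Subtype.ext h2
    · right
      apply Submodule.map_injective_of_injective
        (Submodule.injective_subtype (col c i : Submodule F (Fin n → F)))
      rw [h1, Submodule.map_top, Submodule.range_subtype]
  have hE' : Eic (bres Q c i) ⟨e, he⟩ ⟨a, ha⟩ := ⟨hE.ee, hE.ea, hE.aa⟩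
  have he' : (⟨e, he⟩ : (col c i : Submodule F (Fin n → F))) ≠ 0 := by
    intro h
    exact he0 (congrArg Subtype.val h)
  let L : Submodule F (Module.End F (col c i : Submodule F (Fin n → F))) :=
    { carrier := {Y | emb κ j c i Y ∈ LS (IG ρ j)}
      zero_mem' := by
        show emb κ j c i 0 ∈ LS (IG ρ j)
        rw [emb_zero]; exact Submodule.zero_mem _
      add_mem' := fun {Y Z} hY hZ => by
        show emb κ j c i (Y + Z) ∈ LS (IG ρ j)
        rw [emb_add]; exact Submodule.add_mem _ hY hZ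
      smul_mem' := fun t Y hY => by
        show emb κ j c i (t • Y) ∈ LS (IG ρ j)
        rw [emb_smul]; exact Submodule.smul_mem _ _ hY }
  have hmemL : ∀ Y, Y ∈ L ↔ emb κ j c i Y ∈ LS (IG ρ j) := fun Y => Iff.rfl
  have hX : ∀ γ, wl (bres Q c i) (gres G hst γ ⟨e, he⟩) (gres G hst γ ⟨a, ha⟩) ∈ L := by
    intro γ
    rw [hmemL, emb_wl hQ hQb, gres_coe, gres_coe]
    have hgg : toLin' (G γ) * toLin' (G γ⁻¹) = 1 := by
      have h1 : toLin' (G γ) * toLin' (G γ⁻¹) = toLin' (G γ * G γ⁻¹) := (toLin'_mul _ _).symm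
      rw [h1, ← map_mul, mul_inv_cancel, map_one, toLin'_one]
      rfl
    have hgg' : toLin' (G γ⁻¹) * toLin' (G γ) = 1 := by
      have h1 : toLin' (G γ⁻¹) * toLin' (G γ) = toLin' (G γ⁻¹ * G γ) := (toLin'_mul _ _).symm
      rw [h1, ← map_mul, inv_mul_cancel, map_one, toLin'_one]
      rfl
    refine wd_mem (γ := γ * σ * γ⁻¹) (v := v) (G := G) hρ hQ ?_ ?_ ?_
    · have h1 := Eic.map (g := toLin' (G γ)) (isom_of_matrix (hG γ)) hE
      rwa [toLin'_apply, toLin'_apply] at h1
    · rw [map_mul, map_mul, hv, mul_one, ← map_mul, mul_inv_cancel, map_one]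
    · have h1 := conj_Ee (isom_of_matrix (hG γ)) hgg hgg' e a
      rw [toLin'_apply, toLin'_apply, ← hσ] at h1
      have h2 : G (γ * σ * γ⁻¹) = G γ * G σ * G γ⁻¹ := by rw [G.map_mul, G.map_mul]
      rw [← h1, h2, toLin'_mul, toLin'_mul]
      rfl
  have had : ∀ γ, ∀ Z ∈ L, bk (wl (bres Q c i) (gres G hst γ ⟨e, he⟩) (gres G hst γ ⟨a, ha⟩)) Z ∈
      L := by
    intro γ Z hZ
    have h1 := hX γ
    rw [hmemL] at h1 hZ ⊢
    have h2 : ∀ Y Z : Module.End F (col c i : Submodule F (Fin n → F)),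
        emb κ j c i (bk Y Z) = emb κ j c i Y * emb κ j c i Z - emb κ j c i Z * emb κ j c i Y := by
      intro Y Z
      unfold bk
      rw [← emb_mul, ← emb_mul, eq_sub_iff_add_eq, ← emb_add]
      have h3 : Y * Z - Z * Y + Z * Y = Y * Z := by abel
      rw [h3]
    rw [h2]
    exact LS_br h1 hZ
  have h1 := wl_all hsy (gres G hst) hg hE' (span_of_sirr hs he') (conn_of_sirr hsy hnd hg hs he')
    hX had ⟨x, hx⟩ ⟨y, hy⟩
  rw [hmemL, emb_wl hQ hQb] at h1
  exact h1

end

end Pool.Agent.Y127.C
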