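import Pool.Agent.Y127.C.Lie2
import Pool.Agent.Y95.MT.RHS

/-!
# The Mumford-Tate conjecture with cusp places
-/

set_option autoImplicit false
set_option linter.unusedSectionVars false

namespace Pool.Agent.Y127.C

open MvPolynomial Pool.Agent.W528.ZC Pool.Agent.Y95.MT Pool.Agent.Y127.I
open Matrix hiding col
open Pool.Agent.W544.PG

noncomputable section

section dim

variable {F : Type} [Field F] {n r : ℕ} (c : Fin n → Fin r) (i : Fin r)

/-- coordinates on the vectors of colour `i` -/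
def colEquiv : (col c i : Submodule F (Fin n → F)) ≃ₗ[F] ({a // c a = i} → F) where
  toFun w a := (w : Fin n → F) a
  map_add' _ _ := rfl
  map_smul' _ _ := rfl
  invFun f := ⟨fun a => if h : c a = i then f ⟨a, h⟩ else 0, fun a ha => dif_neg ha⟩
  left_inv w := by
    apply Subtype.ext
    funext a
    show (if h : c a = i then (w : Fin n → F) a else 0) = _
    split_ifs with h
    · rfl
    · exact (w.2 a h).symm
  right_inv f := by
    funext a
    show (if h : c a = i then f ⟨a, h⟩ else 0) = _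
    rw [dif_pos a.2]

theorem finrank_col : Module.finrank F (col c i : Submodule F (Fin n → F)) =
    (Finset.univ.filter fun a => c a = i).card := by
  rw [LinearEquiv.finrank_eq (colEquiv c i), Module.finrank_fintype_fun_eq_card,
    Fintype.card_subtype]

end dim

section low

variable {n r : ℕ} {c : Fin n → Fin r} {i : Fin r} {κ : Type} [Fintype κ] [DecidableEq κ]

/-- the second block -/
def low (κ : Type) [Fintype κ] [DecidableEq κ] (n : ℕ) :
    Matrix (Fin n) (Fin n) ℂ →ₗ[ℂ] Matrix (κ ⊕ Fin n) (κ ⊕ Fin n) ℂ where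
  toFun M := fromBlocks 0 0 0 M
  map_add' M M' := by
    ext x y
    rcases x with x | x <;> rcases y with y | y <;> simp
  map_smul' t M := by
    ext x y
    rcases x with x | x <;> rcases y with y | y <;> simp

theorem low_apply (M : Matrix (Fin n) (Fin n) ℂ) : low κ n M = fromBlocks 0 0 0 M := rfl

theorem wd_neg {ι : Type} [Fintype ι] [DecidableEq ι] {K : Type} [Field K] (B : Matrix ι ι K)
    (a b : ι → K) : wd B a b = -wd B b a := by
  unfold wd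
  rw [neg_sub]

theorem ext_mem {L : Submodule ℂ (Matrix (κ ⊕ Fin n) (κ ⊕ Fin n) ℂ)}
    {Q : Matrix (Fin n) (Fin n) ℂ}
    (h : ∀ x y : Fin n, c x = i → c y = i →
      fromBlocks 0 0 0 (wd Q (Pi.single x 1) (Pi.single y 1)) ∈ L)
    (a b : Fin n → ℂ) (ha : a ∈ (col c i : Submodule ℂ (Fin n → ℂ)))
    (hb : b ∈ (col c i : Submodule ℂ (Fin n → ℂ))) : fromBlocks 0 0 0 (wd Q a b) ∈ L := by
  have key : ∀ a : Fin n → ℂ, (∀ y, c y = i → fromBlocks 0 0 0 (wd Q a (Pi.single y 1)) ∈ L) →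
      ∀ b ∈ (col c i : Submodule ℂ (Fin n → ℂ)), fromBlocks 0 0 0 (wd Q a b) ∈ L := by
    intro a ha b hb
    let M : Submodule ℂ (Fin n → ℂ) :=
      { carrier := {b | low κ n (wd Q a b) ∈ L}
        zero_mem' := by
          show low κ n (wd Q a 0) ∈ L
          rw [wd_zero, map_zero]; exact L.zero_mem
        add_mem' := fun {x y} hx hy => by
          show low κ n (wd Q a (x + y)) ∈ L
          rw [wd_add, map_add]; exact L.add_mem hx hy
        smul_mem' := fun t x hx => by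
          show low κ n (wd Q a (t • x)) ∈ L
          rw [wd_smul, map_smul]; exact L.smul_mem _ hx }
    have hM : ∀ w, w ∈ M ↔ low κ n (wd Q a w) ∈ L := fun w => Iff.rfl
    have h1 : b ∈ M := by
      rw [col_sum hb]
      refine Submodule.sum_mem _ fun k _ => M.smul_mem _ ?_
      split_ifs with hk
      · exact ha k hk
      · exact M.zero_mem
    exact h1
  refine key a (fun y hy => ?_) b hb
  have h1 := key (Pi.single y 1) (fun x hx => h y x hy hx) a ha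
  rw [← low_apply] at h1 ⊢
  rw [wd_neg, map_neg]
  exact L.neg_mem h1

theorem map_wd {F K : Type} [Field F] [Field K] (j : F →+* K) (Q : Matrix (Fin n) (Fin n) F)
    (x y : Fin n → F) : (wd Q x y).map j = wd (Q.map j) (fun a => j (x a)) (fun a => j (y a)) := by
  ext a b
  simp only [wd, Matrix.map_apply, Matrix.sub_apply, vecMulVec_apply, map_sub, map_mul,
    Matrix.mulVec, dotProduct, map_sum]

end low

section main

variable {ℓ : ℕ} [Fact ℓ.Prime] {n r : ℕ} {κ : Type} [Fintype κ] [DecidableEq κ] {Γ : Type}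
  [Group Γ] {c : Fin n → Fin r} {T : HS n} {p q : Fin r → ℕ}
  {β : Γ →* Matrix (Fin n) (Fin n) ℤ_[ℓ]} {v : Γ →* Matrix κ κ ℚ_[ℓ]} {hV : ℂ → Matrix κ κ ℂ}

variable (c T v β) in
/-- some element acts as an Eichler transformation of `T_i` and trivially on the rest -/
def CuspE (i : Fin r) : Prop :=
  ∃ (σ : Γ) (e a : Fin n → ℚ_[ℓ]), e ∈ (col c i : Submodule ℚ_[ℓ] (Fin n → ℚ_[ℓ])) ∧
    a ∈ (col c i : Submodule ℚ_[ℓ] (Fin n → ℚ_[ℓ])) ∧
    Eic (bil (T.Q.map (algebraMap ℚ ℚ_[ℓ]))) e a ∧ e ≠ 0 ∧ v σ = 1 ∧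
    toLin' (qm (β σ)) = Ee (bil (T.Q.map (algebraMap ℚ ℚ_[ℓ]))) e a

variable (c β) in
/-- irreducibility under the subgroups of index at most the dimension -/
def SIs (i : Fin r) : Prop :=
  ∀ Δ : Subgroup Γ, Δ.index ≠ 0 → Δ.index ≤ (Finset.univ.filter fun a => c a = i).card →
    ∀ W : Submodule ℚ_[ℓ] (Fin n → ℚ_[ℓ]), W ≤ col c i →
    (∀ s ∈ Δ, ∀ w ∈ W, qm (β s) *ᵥ w ∈ W) → W = ⊥ ∨ W = col c i

/-- the representation over `ℚ_ℓ` -/
def qmHom (β : Γ →* Matrix (Fin n) (Fin n) ℤ_[ℓ]) : Γ →* Matrix (Fin n) (Fin n) ℚ_[ℓ] where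
  toFun s := qm (β s)
  map_one' := by rw [map_one, qm_one]
  map_mul' s t := by rw [map_mul, qm_mul]

theorem gal_so' (hg : GalT c T.Q β) (hbQ : BD c T.Q) (hcusp : ∀ i, CuspE c T β v i)
    (hSI : ∀ i, SIs c β i) (e : ℚ_[ℓ] →+* ℂ) (Z : Matrix (Fin n) (Fin n) ℂ)
    (hZ : Zᵀ * mC T.Q + mC T.Q * Z = 0) (hZb : BD c Z) :
    fromBlocks 0 0 0 Z ∈ LS (IG (tot v β) e) := by
  have hbQ' : BD c (mC T.Q) := fun a b hab => by simp [mC, hbQ a b hab]
  have hsy : (mC T.Q)ᵀ = mC T.Q := by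
    have h1 := congrArg (fun M => mC M) T.symm
    simpa [mC, ← Matrix.transpose_map] using h1
  have hdet : (mC T.Q).det ≠ 0 := by
    rw [det_mC]
    exact_mod_cast W74.PG.det_ne T
  refine skew_mem (c := c) hsy hdet hbQ' (fun i a b ha hb => ?_) hZ hZb
  refine ext_mem (fun x y hx hy => ?_) a b ha hb
  obtain ⟨σ, e', a', h1, h2, h3, h4, h5, h6⟩ := hcusp i
  have hQs : (T.Q.map (algebraMap ℚ ℚ_[ℓ]))ᵀ = T.Q.map (algebraMap ℚ ℚ_[ℓ]) := by
    rw [← Matrix.transpose_map, T.symm]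
  have hQd : (T.Q.map (algebraMap ℚ ℚ_[ℓ])).det ≠ 0 := by
    have h7 : (T.Q.map (algebraMap ℚ ℚ_[ℓ])).det = algebraMap ℚ ℚ_[ℓ] T.Q.det :=
      (RingHom.map_det (algebraMap ℚ ℚ_[ℓ]) T.Q).symm
    rw [h7]
    exact (map_ne_zero _).2 (W74.PG.det_ne T)
  have hQb : BD c (T.Q.map (algebraMap ℚ ℚ_[ℓ])) := by
    intro a b hab
    rw [Matrix.map_apply, hbQ a b hab, map_zero]
  have hsx : ∀ x, c x = i → (Pi.single x (1 : ℚ_[ℓ]) : Fin n → ℚ_[ℓ]) ∈
      (col c i : Submodule ℚ_[ℓ] (Fin n → ℚ_[ℓ])) := by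
    intro x hx a ha
    rw [Pi.single_eq_of_ne]
    rintro rfl
    exact ha hx
  have h7 := so_mem (j := e) (ρ := tot v β) (v := v) (G := qmHom β)
    (Q := T.Q.map (algebraMap ℚ ℚ_[ℓ])) (fun s => rfl) hQs hQd hQb hg.form (c := c) (i := i)
    (fun s w hw a ha => by
      show (qm (β s) *ᵥ w) a = 0
      rw [Matrix.mulVec, dotProduct]
      refine Finset.sum_eq_zero fun x _ => ?_
      by_cases hx : c x = i
      · rw [hg.qbd s a x (by rw [hx]; exact ha), zero_mul]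
      · rw [hw x hx, mul_zero]) h1 h2 h3 h4 h5 h6
    (fun Δ h0 hi W hW hWs => hSI i Δ h0 (by rw [← finrank_col (F := ℚ_[ℓ])]; exact hi) W hW hWs)
    (hsx x hx) (hsx y hy)
  rw [map_wd, map_alg e, ← mC_eq] at h7
  have h8 : ∀ x : Fin n, (fun a => e ((Pi.single x (1 : ℚ_[ℓ]) : Fin n → ℚ_[ℓ]) a)) =
      (Pi.single x (1 : ℂ) : Fin n → ℂ) := by
    intro x
    funext a
    rw [Pi.single_apply, Pi.single_apply]
    split_ifs
    · exact map_one e
    · exact map_zero e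
  rw [h8, h8] at h7
  exact h7

/-- the Lie algebra contains all `so(T_i)` -/
def SoAll (c : Fin n → Fin r) (T : HS n) (β : Γ →* Matrix (Fin n) (Fin n) ℤ_[ℓ])
    (v : Γ →* Matrix κ κ ℚ_[ℓ]) : Prop :=
  ∀ (e : ℚ_[ℓ] →+* ℂ) (Z : Matrix (Fin n) (Fin n) ℂ), Zᵀ * mC T.Q + mC T.Q * Z = 0 → BD c Z →
    fromBlocks 0 0 0 Z ∈ LS (IG (tot v β) e)

theorem SO_St_gal' (hbQ : BD c T.Q) (hso : SoAll c T β v)
    (e : AlgebraicClosure ℚ_[ℓ] →+* ℂ)
    {t : Matrix (Fin n) (Fin n) (AlgebraicClosure ℚ_[ℓ])} (ht : InSO c T.Q t) :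
    fromBlocks 1 0 0 t ∈ St (IG (tot v β) (algebraMap ℚ_[ℓ] (AlgebraicClosure ℚ_[ℓ]))) := by
  refine St_transfer e ?_
  rw [fb_map, Matrix.map_one _ (map_zero e) (map_one e)]
  exact SO_St (T := T) hbQ (fun Z hZ hZb => hso _ Z hZ hZb) (InSO_map e ht)

/-- the monodromy group of the direct sum -/
theorem InG0_prod' (hg : GalT c T.Q β) (hbQ : BD c T.Q) (hso : SoAll c T β v)
    (e : AlgebraicClosure ℚ_[ℓ] →+* ℂ)
    {g : Matrix (κ ⊕ Fin n) (κ ⊕ Fin n) (AlgebraicClosure ℚ_[ℓ])} :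
    InG0 (tot v β) g ↔ g = fromBlocks g.toBlocks₁₁ 0 0 g.toBlocks₂₂ ∧ InG0 v g.toBlocks₁₁ ∧
      InSO c T.Q g.toBlocks₂₂ := by
  obtain ⟨j, hj⟩ : ∃ j, j = algebraMap ℚ_[ℓ] (AlgebraicClosure ℚ_[ℓ]) := ⟨_, rfl⟩
  obtain ⟨Δ₀, hΔ₀, hdet⟩ := hg.exists_det hbQ (e.comp j)
  rw [InG0_iff, InG0_iff]
  have htot : ∀ s, (tot v β s).map j = fromBlocks ((v s).map j) 0 0 ((qm (β s)).map j) :=
    fun s => fb_map _ _ _
  rw [← hj]
  constructor
  · intro h
    obtain ⟨h1, h2⟩ := (PSO_iff (c := c) (Q := T.Q) g).1 fun f hf => by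
      rw [← ev_toK]
      refine h _ ⟨Δ₀, hΔ₀, fun s hs => ?_⟩
      rw [ev_toK]
      refine (PSO_iff (c := c) (Q := T.Q) _).2 ⟨?_, ?_⟩ f hf
      · rw [htot, Matrix.toBlocks_fromBlocks₁₁, Matrix.toBlocks_fromBlocks₂₂]
      · rw [htot, Matrix.toBlocks_fromBlocks₂₂]
        exact hg.SO j (hdet s hs)
    refine ⟨h1, ?_, h2⟩
    rintro f ⟨Δ, hΔ, hf⟩
    rw [← ev_upK (n := n)]
    refine h _ ⟨Δ, hΔ, fun s hs => ?_⟩
    rw [ev_upK, htot, Matrix.toBlocks_fromBlocks₁₁]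
    exact hf s hs
  · rintro ⟨h1, h2, h3⟩ f hf
    have hSt := SO_St_gal' (v := v) hbQ hso e h3
    rw [← hj] at hSt
    have h4 : g = 1 * fromBlocks g.toBlocks₁₁ 0 0 1 * fromBlocks 1 0 0 g.toBlocks₂₂ := by
      rw [one_mul, Y95.MT.fb_mul, mul_one, one_mul]
      exact h1
    rw [h4, ← ev_sub]
    have h5 := hSt f hf
    generalize sub 1 (fromBlocks 1 0 0 g.toBlocks₂₂) f = f' at h5
    rw [← ev_dnK]
    refine h2 _ ?_
    obtain ⟨Δ₁, hΔ₁, hu⟩ := exists_unif (tot v β) j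
    refine ⟨Δ₀ ⊓ Δ₁, inferInstance, fun s hs => ?_⟩
    rw [ev_dnK]
    have hSt' := SO_St_gal' (v := v) hbQ hso e
      (hg.SO j (hdet s⁻¹ (Δ₀.inv_mem hs.1)))
    rw [← hj] at hSt'
    have h6 := hu _ (hSt' f' h5) s hs.2
    rw [ev_sub, htot, one_mul, Y95.MT.fb_mul, mul_one] at h6
    have h7 : (qm (β s)).map j * (qm (β s⁻¹)).map j = 1 := by
      rw [← Matrix.map_mul, ← qm_mul, ← map_mul, mul_inv_cancel, map_one, qm_one,
        Matrix.map_one _ (map_zero _) (map_one _)]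
    rwa [h7] at h6

/-- **The Mumford-Tate conjecture for a direct sum, with cusp places.** -/
theorem main' (hB : T.Big c p q) (hVd : ∀ z, z ≠ 0 → (hV z).det ≠ 0)
    (hx : fromBlocks 0 0 0 T.x ∈ LS (SH (hM hV T))) (hg : GalT c T.Q β)
    (hcusp : ∀ i, CuspE c T β v i) :
    MTC (hM hV T) (tot v β) ↔ MTC hV v ∧ ∀ i, SIs c β i := by
  obtain ⟨e⟩ := exists_emb ℓ
  constructor
  · intro h
    have hSI : ∀ i, SIs c β i := fun i Δ h0 _ W hW hWs =>
      SI_of_MTC hB hVd hx h i Δ ⟨h0⟩ W hW hWs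
    have hso : SoAll c T β v := fun e' Z hZ hZb => gal_so' hg hB.bQ hcusp hSI e' Z hZ hZb
    refine ⟨fun g hgd => ?_, hSI⟩
    have hd : (fromBlocks g 0 0 (1 : Matrix (Fin n) (Fin n) (AlgebraicClosure ℚ_[ℓ]))).det ≠ 0 := by
      rw [fb_det, Matrix.det_one, mul_one]
      exact hgd
    have h1 := h _ hd
    rw [InG0_prod' hg hB.bQ hso e, InMT_iff (c := c) hB hVd hx e hd,
      Matrix.toBlocks_fromBlocks₁₁, Matrix.toBlocks_fromBlocks₂₂] at h1
    have h2 : InSO c T.Q (1 : Matrix (Fin n) (Fin n) (AlgebraicClosure ℚ_[ℓ])) := InSO_one _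
    constructor
    · intro h3
      exact (h1.1 ⟨rfl, h3, h2⟩).2.1
    · intro h3
      exact (h1.2 ⟨rfl, h3, h2⟩).2.1
  · rintro ⟨h, hSI⟩ g hgd
    have hso : SoAll c T β v := fun e' Z hZ hZb => gal_so' hg hB.bQ hcusp hSI e' Z hZ hZb
    rw [InG0_prod' hg hB.bQ hso e, InMT_iff (c := c) hB hVd hx e hgd]
    refine and_congr_right fun h1 => and_congr_left fun _ => ?_
    refine h _ fun h2 => hgd ?_
    rw [h1, fb_det, h2, zero_mul]

end main

end

end Pool.Agent.Y127.C
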